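import Mathlib
import Pool.Agent.Lib.DK4.Defs

/-!
# The Riccati function of the Bessel function `J₀`

`F z = ∑ (-z)^n / (n!)²`, `J₀(x) = F(x²/4)`, `F' = F1`, `P z = z F1 z`, `P' = -F`.
`G = -P / F`, `K = P F1 / F²`, `G' = 1 + K`, `z K = G²`, `K` is nondecreasing on `[0, j₀₁²/4)`.
-/

set_option autoImplicit false

open Set Filter Topology

namespace FK4

open DK4

/-- coefficients -/
noncomputable def ac (n : ℕ) : ℝ := (-1) ^ n / ((n.factorial : ℝ) ^ 2)

theorem ac_zero : ac 0 = 1 := by simp [ac]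

theorem ac_succ (n : ℕ) : ((n : ℝ) + 1) ^ 2 * ac (n + 1) = - ac n := by
  unfold ac
  rw [Nat.factorial_succ]
  push_cast
  have h : (n.factorial : ℝ) ≠ 0 := by exact_mod_cast n.factorial_ne_zero
  have h2 : (n : ℝ) + 1 ≠ 0 := by positivity
  field_simp
  ring

theorem abs_ac_le (n : ℕ) : |ac n| ≤ 1 / (n.factorial : ℝ) := by
  unfold ac
  rw [abs_div, abs_pow, abs_neg, abs_one, one_pow, abs_of_nonneg (by positivity)]
  have h : (1 : ℝ) ≤ n.factorial := by exact_mod_cast n.factorial_pos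
  rw [div_le_div_iff₀ (by positivity) (by positivity)]
  nlinarith

theorem abs_succ_ac_le (n : ℕ) : |((n : ℝ) + 1) * ac (n + 1)| ≤ 1 / (n.factorial : ℝ) := by
  have h1 := ac_succ n
  have h2 : ((n : ℝ) + 1) * ac (n + 1) = - ac n / ((n : ℝ) + 1) := by
    have h2 : (n : ℝ) + 1 ≠ 0 := by positivity
    field_simp
    linarith
  rw [h2, abs_div, abs_neg, abs_of_pos (by positivity : (0 : ℝ) < (n : ℝ) + 1)]
  refine le_trans ?_ (abs_ac_le n)
  apply div_le_self (abs_nonneg _)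
  have : (0 : ℝ) ≤ n := Nat.cast_nonneg n
  linarith

/-- the function `F` -/
noncomputable def F (z : ℝ) : ℝ := ∑' n : ℕ, ac n * z ^ n

/-- the derivative of `F` -/
noncomputable def F1 (z : ℝ) : ℝ := ∑' n : ℕ, ((n : ℝ) + 1) * ac (n + 1) * z ^ n

theorem summ (c : ℕ → ℝ) (hc : ∀ n, |c n| ≤ 1 / (n.factorial : ℝ)) (z : ℝ) :
    Summable fun n => c n * z ^ n := by
  refine Summable.of_norm_bounded (Real.summable_pow_div_factorial |z|) fun n => ?_
  rw [norm_mul, norm_pow, Real.norm_eq_abs, Real.norm_eq_abs]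
  calc |c n| * |z| ^ n ≤ 1 / (n.factorial : ℝ) * |z| ^ n :=
        mul_le_mul_of_nonneg_right (hc n) (by positivity)
    _ = _ := by ring

/-- termwise differentiation -/
theorem deriv_series (b c : ℕ → ℝ) (hbc : ∀ n : ℕ, ((n : ℝ) + 1) * b n = c n)
    (hc : ∀ n, |c n| ≤ 1 / (n.factorial : ℝ)) (z : ℝ) :
    HasDerivAt (fun y => ∑' n : ℕ, b n * y ^ (n + 1)) (∑' n : ℕ, c n * z ^ n) z := by
  set R := |z| + 1 with hR
  have hz : z ∈ Ioo (-R) R := by
    rw [mem_Ioo]
    have := neg_abs_le z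
    have := le_abs_self z
    constructor <;> linarith
  have hR0 : 0 < R := by positivity
  refine hasDerivAt_tsum_of_isPreconnected (u := fun n => R ^ n / (n.factorial : ℝ))
    (t := Ioo (-R) R) (g := fun n y => b n * y ^ (n + 1)) (g' := fun n y => c n * y ^ n)
    (Real.summable_pow_div_factorial R) isOpen_Ioo isPreconnected_Ioo ?_ ?_
    (y₀ := 0) ⟨by linarith, hR0⟩ ?_ hz
  · intro n y _
    have h1 := (hasDerivAt_pow (n + 1) y).const_mul (b n)
    have e : b n * (((n + 1 : ℕ) : ℝ) * y ^ (n + 1 - 1)) = c n * y ^ n := by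
      rw [← hbc n]
      push_cast
      ring
    rw [e] at h1
    exact h1
  · intro n y hy
    rw [norm_mul, norm_pow, Real.norm_eq_abs, Real.norm_eq_abs]
    have h2 : |y| ≤ R := abs_le.2 ⟨hy.1.le, hy.2.le⟩
    calc |c n| * |y| ^ n ≤ 1 / (n.factorial : ℝ) * R ^ n :=
          mul_le_mul (hc n) (pow_le_pow_left₀ (abs_nonneg _) h2 n) (by positivity) (by positivity)
      _ = _ := by ring
  · simp

theorem F_eq (z : ℝ) : F z = 1 + ∑' n : ℕ, ac (n + 1) * z ^ (n + 1) := by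
  have h := (summ ac abs_ac_le z).tsum_eq_zero_add
  rw [F, h, ac_zero]
  simp

theorem hasDerivAt_F (z : ℝ) : HasDerivAt F (F1 z) z := by
  have h := deriv_series (fun n => ac (n + 1)) (fun n => ((n : ℝ) + 1) * ac (n + 1))
    (fun n => rfl) abs_succ_ac_le z
  have e : F = fun y => 1 + ∑' n : ℕ, ac (n + 1) * y ^ (n + 1) := funext F_eq
  rw [e]
  exact h.const_add 1

theorem hasDerivAt_P (z : ℝ) : HasDerivAt (fun y => y * F1 y) (- F z) z := by
  have h := deriv_series (fun n => ((n : ℝ) + 1) * ac (n + 1)) (fun n => - ac n)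
    (fun n => by rw [← ac_succ]; ring) (fun n => by rw [abs_neg]; exact abs_ac_le n) z
  have e : (fun y => y * F1 y) = fun y => ∑' n : ℕ, ((n : ℝ) + 1) * ac (n + 1) * y ^ (n + 1) := by
    funext y
    rw [F1, ← tsum_mul_left]
    refine tsum_congr fun n => ?_
    ring
  have e2 : ∑' n : ℕ, - ac n * z ^ n = - F z := by
    rw [F, ← tsum_neg]
    refine tsum_congr fun n => ?_
    ring
  rw [e, ← e2]
  exact h

theorem F_zero : F 0 = 1 := by
  rw [F_eq]
  simp

theorem J0_eq (x : ℝ) : J0 x = F (x ^ 2 / 4) := by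
  unfold J0 F ac
  refine tsum_congr fun n => ?_
  have : (x / 2) ^ (2 * n) = (x ^ 2 / 4) ^ n := by
    rw [pow_mul]
    congr 1
    ring
  rw [this]
  ring

theorem continuous_F : Continuous F :=
  continuous_iff_continuousAt.2 fun z => (hasDerivAt_F z).continuousAt

theorem j01_nonneg : 0 ≤ j01 := Real.sInf_nonneg fun _ hx => hx.1.le

theorem F_pos {z : ℝ} (h0 : 0 ≤ z) (h1 : z < j01 ^ 2 / 4) : 0 < F z := by
  by_contra hcon
  push Not at hcon
  have hiv : (0 : ℝ) ∈ F '' Icc 0 z :=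
    intermediate_value_Icc' h0 continuous_F.continuousOn ⟨hcon, by rw [F_zero]; norm_num⟩
  obtain ⟨w, ⟨hw0, hwz⟩, hw⟩ := hiv
  have hw' : w ≠ 0 := by
    rintro rfl
    rw [F_zero] at hw
    norm_num at hw
  have hwp : 0 < w := lt_of_le_of_ne hw0 hw'.symm
  have hx : j01 ≤ 2 * √w := by
    refine csInf_le ⟨0, fun _ hx => hx.1.le⟩ ⟨by positivity, ?_⟩
    rw [J0_eq]
    have : (2 * √w) ^ 2 / 4 = w := by
      rw [mul_pow, Real.sq_sqrt hw0]
      ring
    rw [this, hw]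
  have h2 : j01 ^ 2 ≤ (2 * √w) ^ 2 := pow_le_pow_left₀ j01_nonneg hx 2
  rw [mul_pow, Real.sq_sqrt hw0] at h2
  linarith

/-- the interval on which `F` is positive -/
def II : Set ℝ := Ico 0 (j01 ^ 2 / 4)

theorem convex_II : Convex ℝ II := convex_Ico _ _

theorem interior_II : interior II = Ioo 0 (j01 ^ 2 / 4) := interior_Ico

theorem F1_nonpos {z : ℝ} (hz : z ∈ II) : z * F1 z ≤ 0 := by
  have h : AntitoneOn (fun y => y * F1 y) II := by
    refine antitoneOn_of_deriv_nonpos convex_II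
      (fun y _ => (hasDerivAt_P y).continuousAt.continuousWithinAt)
      (fun y _ => (hasDerivAt_P y).differentiableAt.differentiableWithinAt) ?_
    intro y hy
    rw [interior_II] at hy
    rw [(hasDerivAt_P y).deriv]
    exact neg_nonpos.2 (F_pos hy.1.le hy.2).le
  have h0 : (0 : ℝ) ∈ II := ⟨le_rfl, hz.1.trans_lt hz.2⟩
  have := h h0 hz hz.1
  simpa using this

theorem F1_nonpos' {z : ℝ} (hz : z ∈ Ioo 0 (j01 ^ 2 / 4)) : F1 z ≤ 0 := by
  have h := F1_nonpos (z := z) ⟨hz.1.le, hz.2⟩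
  by_contra hcon
  push Not at hcon
  have := mul_pos hz.1 hcon
  linarith

theorem F_le_one {z : ℝ} (hz : z ∈ II) : F z ≤ 1 := by
  have h : AntitoneOn F II := by
    refine antitoneOn_of_deriv_nonpos convex_II continuous_F.continuousOn
      (fun y _ => (hasDerivAt_F y).differentiableAt.differentiableWithinAt) ?_
    intro y hy
    rw [interior_II] at hy
    rw [(hasDerivAt_F y).deriv]
    exact F1_nonpos' hy
  have h0 : (0 : ℝ) ∈ II := ⟨le_rfl, hz.1.trans_lt hz.2⟩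
  have := h h0 hz hz.1
  rwa [F_zero] at this

theorem P_ge {z : ℝ} (hz : z ∈ II) : 0 ≤ z * F1 z + z := by
  have hd : ∀ y, HasDerivAt (fun y => y * F1 y + y) (- F y + 1) y := fun y =>
    (hasDerivAt_P y).add (hasDerivAt_id y)
  have h : MonotoneOn (fun y => y * F1 y + y) II := by
    refine monotoneOn_of_deriv_nonneg convex_II
      (fun y _ => (hd y).continuousAt.continuousWithinAt)
      (fun y _ => (hd y).differentiableAt.differentiableWithinAt) ?_
    intro y hy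
    rw [interior_II] at hy
    rw [(hd y).deriv]
    have := F_le_one (z := y) ⟨hy.1.le, hy.2⟩
    linarith
  have h0 : (0 : ℝ) ∈ II := ⟨le_rfl, hz.1.trans_lt hz.2⟩
  have := h h0 hz hz.1
  simpa using this

theorem F1_ge {z : ℝ} (hz : z ∈ Ioo 0 (j01 ^ 2 / 4)) : -1 ≤ F1 z := by
  have h := P_ge (z := z) ⟨hz.1.le, hz.2⟩
  by_contra hcon
  push Not at hcon
  have : z * (F1 z + 1) < 0 := mul_neg_of_pos_of_neg hz.1 (by linarith)
  linarith

theorem F_ge {z : ℝ} (hz : z ∈ II) : 1 - z ≤ F z := by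
  have hd : ∀ y, HasDerivAt (fun y => F y + y) (F1 y + 1) y := fun y =>
    (hasDerivAt_F y).add (hasDerivAt_id y)
  have h : MonotoneOn (fun y => F y + y) II := by
    refine monotoneOn_of_deriv_nonneg convex_II
      (fun y _ => (hd y).continuousAt.continuousWithinAt)
      (fun y _ => (hd y).differentiableAt.differentiableWithinAt) ?_
    intro y hy
    rw [interior_II] at hy
    rw [(hd y).deriv]
    have := F1_ge hy
    linarith
  have h0 : (0 : ℝ) ∈ II := ⟨le_rfl, hz.1.trans_lt hz.2⟩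
  have := h h0 hz hz.1
  simp only [F_zero, add_zero] at this
  linarith

/-- the function `K` -/
noncomputable def Kf (z : ℝ) : ℝ := z * F1 z * F1 z / F z ^ 2

/-- the function `G` -/
noncomputable def Gf (z : ℝ) : ℝ := -(z * F1 z) / F z

theorem hasDerivAt_G {z : ℝ} (hz : z ∈ II) : HasDerivAt Gf (1 + Kf z) z := by
  have hF := F_pos hz.1 hz.2
  have h := (hasDerivAt_P z).neg.div (hasDerivAt_F z) hF.ne'
  have e : (-(- F z) * F z - -(z * F1 z) * F1 z) / F z ^ 2 = 1 + Kf z := by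
    unfold Kf
    field_simp
    ring
  rw [← e]
  exact h

theorem hasDerivAt_F1 {z : ℝ} (hz : 0 < z) : HasDerivAt F1 (-(F z + F1 z) / z) z := by
  have h := (hasDerivAt_P z).div (hasDerivAt_id z) hz.ne'
  have e : (- F z * id z - z * F1 z * 1) / id z ^ 2 = -(F z + F1 z) / z := by
    simp only [id]
    field_simp
    ring
  rw [e] at h
  refine h.congr_of_eventuallyEq ?_
  filter_upwards [lt_mem_nhds hz] with y hy
  simp only [Pi.div_apply, id]
  field_simp

theorem Kf_nonneg {z : ℝ} (hz : z ∈ II) : 0 ≤ Kf z := by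
  unfold Kf
  have : z * F1 z * F1 z = z * F1 z ^ 2 := by ring
  rw [this]
  exact div_nonneg (mul_nonneg hz.1 (sq_nonneg _)) (sq_nonneg _)

theorem Kf_zero : Kf 0 = 0 := by simp [Kf]

/-- `H = -F'/F` -/
noncomputable def Hf (z : ℝ) : ℝ := -F1 z / F z

theorem Kf_eq (z : ℝ) : Kf z = z * Hf z ^ 2 := by
  unfold Kf Hf
  ring

theorem hasDerivAt_H {z : ℝ} (hz : z ∈ Ioo 0 (j01 ^ 2 / 4)) :
    HasDerivAt Hf ((1 - Hf z) / z + Hf z ^ 2) z := by
  have hF := F_pos hz.1.le hz.2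
  have hz0 := hz.1.ne'
  have h := (hasDerivAt_F1 hz.1).neg.div (hasDerivAt_F z) hF.ne'
  have e : (-(-(F z + F1 z) / z) * F z - -F1 z * F1 z) / F z ^ 2 =
      (1 - Hf z) / z + Hf z ^ 2 := by
    unfold Hf
    field_simp
    ring
  rw [← e]
  exact h

theorem hasDerivAt_K {z : ℝ} (hz : z ∈ Ioo 0 (j01 ^ 2 / 4)) :
    HasDerivAt Kf (Hf z * (2 - Hf z + 2 * z * Hf z ^ 2)) z := by
  have h := (hasDerivAt_id z).mul ((hasDerivAt_H hz).pow 2)
  have hz0 := hz.1.ne'
  have e : 1 * Hf z ^ 2 + id z * (((2 : ℕ) : ℝ) * Hf z ^ (2 - 1) * ((1 - Hf z) / z + Hf z ^ 2)) =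
      Hf z * (2 - Hf z + 2 * z * Hf z ^ 2) := by
    simp only [id]
    field_simp
    push_cast
    ring
  have h' : HasDerivAt (fun y => y * Hf y ^ 2)
      (1 * Hf z ^ 2 + id z * (((2 : ℕ) : ℝ) * Hf z ^ (2 - 1) * ((1 - Hf z) / z + Hf z ^ 2))) z := h
  rw [e] at h'
  have e2 : Kf = fun y => y * Hf y ^ 2 := funext Kf_eq
  rw [e2]
  exact h'

theorem Hf_nonneg {z : ℝ} (hz : z ∈ Ioo 0 (j01 ^ 2 / 4)) : 0 ≤ Hf z :=
  div_nonneg (neg_nonneg.2 (F1_nonpos' hz)) (F_pos hz.1.le hz.2).le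

theorem key_ineq {z : ℝ} (hz : z ∈ Ioo 0 (j01 ^ 2 / 4)) :
    0 ≤ 2 - Hf z + 2 * z * Hf z ^ 2 := by
  rcases le_or_gt z (1 / 16) with h | h
  · have h1 : Hf z ≤ 2 := by
      unfold Hf
      rw [div_le_iff₀ (F_pos hz.1.le hz.2)]
      have h2 := F1_ge hz
      have h3 := F_ge (z := z) ⟨hz.1.le, hz.2⟩
      linarith
    have h4 : 0 ≤ 2 * z * Hf z ^ 2 := by
      have := hz.1.le
      positivity
    linarith
  · have h5 : Hf z ^ 2 / 8 ≤ 2 * z * Hf z ^ 2 := by nlinarith [sq_nonneg (Hf z)]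
    nlinarith [sq_nonneg (Hf z - 4)]

theorem Kf_mono {x y : ℝ} (hx : x ∈ II) (hy : y ∈ II) (hxy : x ≤ y) : Kf x ≤ Kf y := by
  rcases eq_or_lt_of_le hx.1 with h | h
  · rw [← h, Kf_zero]
    exact Kf_nonneg hy
  · have hm : MonotoneOn Kf (Ioo 0 (j01 ^ 2 / 4)) := by
      refine monotoneOn_of_deriv_nonneg (convex_Ioo _ _)
        (fun z hz => (hasDerivAt_K hz).continuousAt.continuousWithinAt) ?_ ?_
      · intro z hz
        rw [interior_Ioo] at hz
        exact (hasDerivAt_K hz).differentiableAt.differentiableWithinAt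
      · intro z hz
        rw [interior_Ioo] at hz
        rw [(hasDerivAt_K hz).deriv]
        exact mul_nonneg (Hf_nonneg hz) (key_ineq hz)
    exact hm ⟨h, hx.2⟩ ⟨h.trans_le hxy, hy.2⟩ hxy

/-- the interface: the Riccati functions -/
theorem exists_riccati : ∃ G K : ℝ → ℝ, G 0 = 0 ∧
    (∀ x, 0 ≤ x → x < j01 ^ 2 / 4 → 0 ≤ K x ∧ 0 ≤ G x ∧ x * K x = G x ^ 2) ∧
    ∀ x y, 0 ≤ x → x ≤ y → y < j01 ^ 2 / 4 → K x * (y - x) ≤ (G y - y) - (G x - x) := by
  refine ⟨Gf, Kf, by simp [Gf], ?_, ?_⟩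
  · intro x h0 h1
    refine ⟨Kf_nonneg ⟨h0, h1⟩, ?_, ?_⟩
    · exact div_nonneg (neg_nonneg.2 (F1_nonpos ⟨h0, h1⟩)) (F_pos h0 h1).le
    · unfold Kf Gf
      ring
  · intro x y h0 hxy h1
    have hI : ∀ t ∈ Icc x y, t ∈ II := fun t ht => ⟨h0.trans ht.1, ht.2.trans_lt h1⟩
    have hd : ∀ t ∈ Icc x y,
        HasDerivAt (fun t => Gf t - t - Kf x * t) (1 + Kf t - 1 - Kf x * 1) t := fun t ht =>
      ((hasDerivAt_G (hI t ht)).sub (hasDerivAt_id t)).sub ((hasDerivAt_id t).const_mul (Kf x))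
    have hm : MonotoneOn (fun t => Gf t - t - Kf x * t) (Icc x y) := by
      refine monotoneOn_of_deriv_nonneg (convex_Icc _ _)
        (fun z hz => (hd z hz).continuousAt.continuousWithinAt) ?_ ?_
      · intro z hz
        rw [interior_Icc] at hz
        exact (hd z ⟨hz.1.le, hz.2.le⟩).differentiableAt.differentiableWithinAt
      · intro z hz
        rw [interior_Icc] at hz
        have hz' : z ∈ Icc x y := ⟨hz.1.le, hz.2.le⟩
        rw [(hd z hz').deriv]
        have := Kf_mono (hI x ⟨le_rfl, hxy⟩) (hI z hz') hz.1.le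
        linarith
    have := hm ⟨le_rfl, hxy⟩ ⟨hxy, le_rfl⟩ hxy
    simp only at this
    linarith

end FK4
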