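import Mathlib
import Pool.Agent.Lib.VR29.BM1

/-!
# Brunn-Minkowski in the plane

* `bm1_add`: `|A| + |B| ≤ |C|` if `A + B ⊆ C`, nonempty measurable sets of reals.
* `bm2`: `(√|A| + √|B|)² ≤ |C|` if `A + B ⊆ C`, in `ℝ × ℝ`.
* `thick`: `|thickening ε A| ≥ (√|A| + √π ε)²` in `ℂ`.
-/

set_option autoImplicit false

open MeasureTheory Set

open scoped ENNReal NNReal

namespace FK4

theorem bm1_add (A B C : Set ℝ) (hA : MeasurableSet A) (hB : MeasurableSet B) (hAn : A.Nonempty)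
    (hBn : B.Nonempty) (h : ∀ a ∈ A, ∀ b ∈ B, a + b ∈ C) : volume A + volume B ≤ volume C := by
  have h1 := VR29.bm1 A B ((fun y : ℝ => 2 * y) ⁻¹' C) hA hB hAn hBn (by
    intro a ha b hb
    rw [mem_preimage]
    have : 2 * ((a + b) / 2) = a + b := by ring
    rw [this]
    exact h a ha b hb)
  rw [Real.volume_preimage_mul_left (by norm_num), abs_of_pos (by norm_num),
    ENNReal.ofReal_inv_of_pos (by norm_num)] at h1
  have h2 : (volume A + volume B) / 2 * 2 ≤ (ENNReal.ofReal 2)⁻¹ * volume C * 2 := by gcongr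
  rw [ENNReal.div_mul_cancel (by norm_num) (by norm_num)] at h2
  refine h2.trans (le_of_eq ?_)
  have : ENNReal.ofReal 2 = 2 := by simp
  rw [this, mul_comm, ← mul_assoc, ENNReal.mul_inv_cancel (by norm_num) (by norm_num), one_mul]

/-- the length of a slice -/
noncomputable def sl (A : Set (ℝ × ℝ)) (x : ℝ) : ℝ := (volume (Prod.mk x ⁻¹' A)).toReal

theorem sl_nonneg (A : Set (ℝ × ℝ)) (x : ℝ) : 0 ≤ sl A x := ENNReal.toReal_nonneg

theorem slice_lt_top {A : Set (ℝ × ℝ)} (hb : Bornology.IsBounded A) :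
    ∃ r : ℝ, 0 < r ∧ ∀ x, volume (Prod.mk x ⁻¹' A) ≤ ENNReal.ofReal r := by
  obtain ⟨R, hR⟩ := hb.subset_closedBall (0 : ℝ × ℝ)
  refine ⟨2 * max R 1, by positivity, fun x => ?_⟩
  have h1 : Prod.mk x ⁻¹' A ⊆ Icc (-(max R 1)) (max R 1) := by
    intro y hy
    have h2 := hR hy
    rw [mem_closedBall_zero_iff, Prod.norm_def] at h2
    have h3 : |y| ≤ R := (le_max_right _ _).trans h2
    have h4 := abs_le.1 (h3.trans (le_max_left R 1))
    exact ⟨h4.1, h4.2⟩
  refine (measure_mono h1).trans ?_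
  rw [Real.volume_Icc]
  apply ENNReal.ofReal_le_ofReal
  linarith

theorem measurable_sl {A : Set (ℝ × ℝ)} (hA : MeasurableSet A) : Measurable (sl A) :=
  (measurable_measure_prodMk_left hA).ennreal_toReal

theorem vol_eq {A : Set (ℝ × ℝ)} (hA : MeasurableSet A) (hb : Bornology.IsBounded A) :
    volume A = ∫⁻ x, ENNReal.ofReal (sl A x) := by
  rw [Measure.volume_eq_prod, Measure.prod_apply hA]
  refine lintegral_congr fun x => ?_
  obtain ⟨r, -, hr⟩ := slice_lt_top hb
  rw [sl, ENNReal.ofReal_toReal]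
  exact ne_of_lt ((hr x).trans_lt ENNReal.ofReal_lt_top)

/-- the layer cake formula for a scaled function with values in `[0, M]` -/
theorem layer (f : ℝ → ℝ) (hf : Measurable f) (h0 : ∀ x, 0 ≤ f x) (M : ℝ) (hM : 0 < M)
    (h1 : ∀ x, f x ≤ M) : ∫⁻ x, ENNReal.ofReal (f x) =
      ENNReal.ofReal M * ∫⁻ θ in Ioo (0 : ℝ) 1, volume {x | M * θ < f x} := by
  have e1 : ∫⁻ x, ENNReal.ofReal (f x) = ENNReal.ofReal M * ∫⁻ x, ENNReal.ofReal (f x / M) := by
    rw [← lintegral_const_mul' _ _ ENNReal.ofReal_ne_top]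
    refine lintegral_congr fun x => ?_
    rw [← ENNReal.ofReal_mul hM.le, mul_div_cancel₀ _ hM.ne']
  rw [e1, lintegral_eq_lintegral_meas_lt volume
    (Filter.Eventually.of_forall fun x => div_nonneg (h0 x) hM.le)
    (hf.div_const M).aemeasurable]
  congr 1
  have e2 : Ioi (0 : ℝ) = Ioo 0 1 ∪ Ici 1 := by
    ext t
    simp only [mem_Ioi, mem_union, mem_Ioo, mem_Ici]
    constructor
    · intro h
      rcases lt_or_ge t 1 with h' | h'
      · exact Or.inl ⟨h, h'⟩
      · exact Or.inr h'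
    · rintro (h | h)
      · exact h.1
      · linarith
  rw [e2, lintegral_union measurableSet_Ici (by
    rw [Set.disjoint_left]
    intro t ht ht'
    exact absurd ht.2 (not_lt.2 ht'))]
  have e3 : ∫⁻ t in Ici (1 : ℝ), volume {a | t < f a / M} = 0 := by
    rw [setLIntegral_congr_fun (g := fun _ => 0) measurableSet_Ici]
    · simp
    · intro t ht
      have : {a | t < f a / M} = ∅ := by
        ext a
        simp only [mem_ofPred_eq, mem_empty_iff_false, iff_false, not_lt]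
        have h2 : f a / M ≤ 1 := (div_le_one hM).2 (h1 a)
        exact h2.trans ht
      simp only [this, measure_empty]
  rw [e3, add_zero]
  refine setLIntegral_congr_fun measurableSet_Ioo fun t _ => ?_
  congr 1
  ext a
  simp only [mem_ofPred_eq]
  rw [lt_div_iff₀ hM, mul_comm]

theorem layer_le (f : ℝ → ℝ) (hf : Measurable f) (h0 : ∀ x, 0 ≤ f x) (M : ℝ) (hM : 0 < M) :
    ENNReal.ofReal M * ∫⁻ θ in Ioo (0 : ℝ) 1, volume {x | M * θ < f x} ≤
      ∫⁻ x, ENNReal.ofReal (f x) := by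
  have h1 := layer (fun x => min (f x) M) (hf.min measurable_const)
    (fun x => le_min (h0 x) hM.le) M hM (fun x => min_le_right _ _)
  have h2 : ∫⁻ θ in Ioo (0 : ℝ) 1, volume {x | M * θ < f x} =
      ∫⁻ θ in Ioo (0 : ℝ) 1, volume {x | M * θ < min (f x) M} := by
    refine setLIntegral_congr_fun measurableSet_Ioo fun t ht => ?_
    congr 1
    ext a
    simp only [mem_ofPred_eq, lt_min_iff]
    constructor
    · intro h
      exact ⟨h, by nlinarith [ht.2]⟩
    · intro h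
      exact h.1
  rw [h2, ← h1]
  exact lintegral_mono fun x => ENNReal.ofReal_le_ofReal (min_le_left _ _)

theorem exists_sup {A : Set (ℝ × ℝ)} (hA : MeasurableSet A) (hb : Bornology.IsBounded A)
    (hA0 : volume A ≠ 0) : ∃ M : ℝ, 0 < M ∧ (∀ x, sl A x ≤ M) ∧
      ∀ θ < (1 : ℝ), ∃ x, M * θ < sl A x := by
  obtain ⟨r, hr0, hr⟩ := slice_lt_top hb
  have hbd : ∀ x, sl A x ≤ r := fun x => by
    rw [sl]
    exact ENNReal.toReal_le_of_le_ofReal hr0.le (hr x)
  have hB : BddAbove (range (sl A)) := ⟨r, by rintro _ ⟨x, rfl⟩; exact hbd x⟩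
  have hM : 0 < ⨆ x, sl A x := by
    by_contra hcon
    push Not at hcon
    apply hA0
    rw [vol_eq hA hb, lintegral_eq_zero_iff (measurable_sl hA).ennreal_ofReal]
    refine Filter.Eventually.of_forall fun x => ?_
    simp only [Pi.zero_apply, ENNReal.ofReal_eq_zero]
    exact (le_ciSup hB x).trans hcon
  refine ⟨⨆ x, sl A x, hM, fun x => le_ciSup hB x, fun θ hθ => ?_⟩
  apply exists_lt_of_lt_ciSup
  nlinarith

theorem sl_add {A B C : Set (ℝ × ℝ)} (hA : MeasurableSet A) (hB : MeasurableSet B)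
    (hAb : Bornology.IsBounded A) (hBb : Bornology.IsBounded B)
    (hCb : Bornology.IsBounded C) (h : ∀ a ∈ A, ∀ b ∈ B, a + b ∈ C) (x y : ℝ)
    (hx : 0 < sl A x) (hy : 0 < sl B y) : sl A x + sl B y ≤ sl C (x + y) := by
  obtain ⟨r, hr0, hr⟩ := slice_lt_top hAb
  obtain ⟨s, hs0, hs⟩ := slice_lt_top hBb
  obtain ⟨t, ht0, ht⟩ := slice_lt_top hCb
  have hA1 : (Prod.mk x ⁻¹' A).Nonempty := by
    by_contra hcon
    rw [Set.not_nonempty_iff_eq_empty] at hcon
    rw [sl, hcon] at hx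
    simp at hx
  have hB1 : (Prod.mk y ⁻¹' B).Nonempty := by
    by_contra hcon
    rw [Set.not_nonempty_iff_eq_empty] at hcon
    rw [sl, hcon] at hy
    simp at hy
  have h1 := bm1_add (Prod.mk x ⁻¹' A) (Prod.mk y ⁻¹' B) (Prod.mk (x + y) ⁻¹' C)
    (measurable_prodMk_left hA) (measurable_prodMk_left hB) hA1 hB1 (by
      intro a ha b hb
      exact h _ ha _ hb)
  unfold sl
  rw [← ENNReal.toReal_add (ne_of_lt ((hr x).trans_lt ENNReal.ofReal_lt_top))
    (ne_of_lt ((hs y).trans_lt ENNReal.ofReal_lt_top))]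
  exact ENNReal.toReal_mono (ne_of_lt ((ht _).trans_lt ENNReal.ofReal_lt_top)) h1

theorem meas_level (f : ℝ → ℝ) (M : ℝ) (hM : 0 < M) :
    Measurable fun θ : ℝ => volume {x | M * θ < f x} := by
  refine Antitone.measurable fun s t hst => ?_
  refine measure_mono fun x hx => ?_
  simp only [mem_ofPred_eq] at hx ⊢
  nlinarith

theorem bm2 (A B C : Set (ℝ × ℝ)) (hA : MeasurableSet A) (hB : MeasurableSet B)
    (hC : MeasurableSet C) (hAb : Bornology.IsBounded A) (hBb : Bornology.IsBounded B)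
    (hCb : Bornology.IsBounded C) (hA0 : volume A ≠ 0) (hB0 : volume B ≠ 0)
    (h : ∀ a ∈ A, ∀ b ∈ B, a + b ∈ C) :
    (√(volume A).toReal + √(volume B).toReal) ^ 2 ≤ (volume C).toReal := by
  obtain ⟨M, hM, hM1, hM2⟩ := exists_sup hA hAb hA0
  obtain ⟨m, hm, hm1, hm2⟩ := exists_sup hB hBb hB0
  have eA := vol_eq hA hAb
  have eB := vol_eq hB hBb
  have eC := vol_eq hC hCb
  rw [layer (sl A) (measurable_sl hA) (sl_nonneg A) M hM hM1] at eA
  rw [layer (sl B) (measurable_sl hB) (sl_nonneg B) m hm hm1] at eB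
  have hC1 := layer_le (sl C) (measurable_sl hC) (sl_nonneg C) (M + m) (by linarith)
  rw [← eC] at hC1
  set LA := ∫⁻ θ in Ioo (0 : ℝ) 1, volume {x | M * θ < sl A x} with hLA
  set LB := ∫⁻ θ in Ioo (0 : ℝ) 1, volume {x | m * θ < sl B x} with hLB
  have hadd : LA + LB ≤ ∫⁻ θ in Ioo (0 : ℝ) 1, volume {x | (M + m) * θ < sl C x} := by
    rw [hLA, hLB, ← lintegral_add_left (meas_level (sl A) M hM)]
    refine setLIntegral_mono' measurableSet_Ioo fun θ hθ => ?_
    refine bm1_add {x | M * θ < sl A x} {x | m * θ < sl B x} {x | (M + m) * θ < sl C x}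
      (measurableSet_lt measurable_const (measurable_sl hA))
      (measurableSet_lt measurable_const (measurable_sl hB))
      (hM2 θ hθ.2) (hm2 θ hθ.2) ?_
    intro x hx y hy
    simp only [mem_ofPred_eq] at hx hy ⊢
    have h1 : 0 < M * θ := mul_pos hM hθ.1
    have h2 : 0 < m * θ := mul_pos hm hθ.1
    have h3 := sl_add hA hB hAb hBb hCb h x y (h1.trans hx) (h2.trans hy)
    nlinarith
  have hCtop : volume C ≠ ⊤ := hCb.measure_lt_top.ne
  have hAtop : volume A ≠ ⊤ := hAb.measure_lt_top.ne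
  have hBtop : volume B ≠ ⊤ := hBb.measure_lt_top.ne
  have hLAtop : LA ≠ ⊤ := by
    intro h'
    rw [h', ENNReal.mul_top (by simpa using hM)] at eA
    exact hAtop eA
  have hLBtop : LB ≠ ⊤ := by
    intro h'
    rw [h', ENNReal.mul_top (by simpa using hm)] at eB
    exact hBtop eB
  have hfin : ENNReal.ofReal (M + m) * (LA + LB) ≤ volume C := (by gcongr : _ ≤ _).trans hC1
  have hreal := ENNReal.toReal_mono hCtop hfin
  rw [ENNReal.toReal_mul, ENNReal.toReal_add hLAtop hLBtop, ENNReal.toReal_ofReal (by linarith)]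
    at hreal
  rw [eA, eB, ENNReal.toReal_mul, ENNReal.toReal_mul, ENNReal.toReal_ofReal hM.le,
    ENNReal.toReal_ofReal hm.le]
  refine le_trans ?_ hreal
  rw [Real.sqrt_mul hM.le, Real.sqrt_mul hm.le]
  have hla : 0 ≤ LA.toReal := ENNReal.toReal_nonneg
  have hlb : 0 ≤ LB.toReal := ENNReal.toReal_nonneg
  have k1 := Real.sq_sqrt hM.le
  have k2 := Real.sq_sqrt hm.le
  have k3 := Real.sq_sqrt hla
  have k4 := Real.sq_sqrt hlb
  have k5 : (M + m) * (LA.toReal + LB.toReal) = (√M ^ 2 + √m ^ 2) *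
      (√LA.toReal ^ 2 + √LB.toReal ^ 2) := by rw [k1, k2, k3, k4]
  rw [k5]
  nlinarith [sq_nonneg (√M * √LB.toReal - √m * √LA.toReal)]

/-- transfer of sets to `ℝ × ℝ` -/
def tr (A : Set ℂ) : Set (ℝ × ℝ) := Complex.measurableEquivRealProd.symm ⁻¹' A

theorem mem_tr {A : Set ℂ} (p : ℝ × ℝ) : p ∈ tr A ↔ (⟨p.1, p.2⟩ : ℂ) ∈ A := Iff.rfl

theorem vol_tr (A : Set ℂ) : volume (tr A) = volume A :=
  (Complex.volume_preserving_equiv_real_prod.symm _).measure_preimage_equiv A

theorem meas_tr {A : Set ℂ} (hA : MeasurableSet A) : MeasurableSet (tr A) :=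
  Complex.measurableEquivRealProd.symm.measurable hA

theorem bdd_tr {A : Set ℂ} (hA : Bornology.IsBounded A) : Bornology.IsBounded (tr A) := by
  obtain ⟨R, hR⟩ := hA.subset_closedBall (0 : ℂ)
  refine (Metric.isBounded_closedBall (x := (0 : ℝ × ℝ)) (r := R)).subset ?_
  intro p hp
  rw [mem_tr] at hp
  have h1 := hR hp
  rw [mem_closedBall_zero_iff] at h1 ⊢
  rw [Prod.norm_def]
  refine max_le ?_ ?_
  · exact (Complex.abs_re_le_norm ⟨p.1, p.2⟩).trans h1
  · exact (Complex.abs_im_le_norm ⟨p.1, p.2⟩).trans h1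

/-- Brunn-Minkowski for a set and a disk -/
theorem thick (A : Set ℂ) (hA : MeasurableSet A) (hb : Bornology.IsBounded A) (hA0 : volume A ≠ 0)
    (ε : ℝ) (hε : 0 < ε) : (√(volume A).toReal + √Real.pi * ε) ^ 2 ≤
      (volume (Metric.thickening ε A)).toReal := by
  have hB : volume (Metric.ball (0 : ℂ) ε) = ENNReal.ofReal ε ^ 2 * NNReal.pi :=
    Complex.volume_ball 0 ε
  have hB' : (volume (Metric.ball (0 : ℂ) ε)).toReal = ε ^ 2 * Real.pi := by
    rw [hB, ENNReal.toReal_mul, ENNReal.toReal_pow, ENNReal.toReal_ofReal hε.le]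
    rfl
  have hB0 : volume (Metric.ball (0 : ℂ) ε) ≠ 0 := (Metric.measure_ball_pos _ _ hε).ne'
  have h := bm2 (tr A) (tr (Metric.ball (0 : ℂ) ε)) (tr (Metric.thickening ε A)) (meas_tr hA)
    (meas_tr measurableSet_ball) (meas_tr Metric.isOpen_thickening.measurableSet) (bdd_tr hb)
    (bdd_tr Metric.isBounded_ball) (bdd_tr hb.thickening) (by rwa [vol_tr]) (by rwa [vol_tr]) (by
      intro a ha b hb
      rw [mem_tr] at ha hb ⊢
      rw [Metric.mem_thickening_iff]
      refine ⟨_, ha, ?_⟩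
      rw [mem_ball_zero_iff] at hb
      rw [dist_eq_norm]
      have e : (⟨(a + b).1, (a + b).2⟩ : ℂ) - ⟨a.1, a.2⟩ = ⟨b.1, b.2⟩ := by
        apply Complex.ext <;> simp
      rw [e]
      exact hb)
  rw [vol_tr, vol_tr, vol_tr, hB', Real.sqrt_mul (sq_nonneg ε), Real.sqrt_sq hε.le,
    mul_comm ε] at h
  exact h

end FK4
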