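import Mathlib
import Pool.Agent.Lib.FK4.Bm

/-!
# The isoperimetric inequality for the levels of a function with values in `[0, 1]`

`S ε φ x` is the supremum of `φ` over the ball of radius `ε` around `x`.
* `iso`: `2 √π √|{φ = 1}| ≤ ∫ |∇φ|`.
-/

set_option autoImplicit false

open MeasureTheory Set Filter Topology

open scoped ENNReal NNReal

namespace FK4

/-- the supremum of `φ` over the ball of radius `ε` around `x` -/
noncomputable def S (ε : ℝ) (φ : ℂ → ℝ) (x : ℂ) : ℝ := ⨆ y : Metric.ball x ε, φ y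

section

variable {φ : ℂ → ℝ} {K : ℝ≥0}

theorem bdd (h1 : ∀ x, φ x ≤ 1) (ε : ℝ) (x : ℂ) :
    BddAbove (range fun y : Metric.ball x ε => φ y) :=
  ⟨1, by rintro _ ⟨y, rfl⟩; exact h1 _⟩

theorem nonempty_ball {ε : ℝ} (hε : 0 < ε) (x : ℂ) : Nonempty (Metric.ball x ε) :=
  ⟨⟨x, Metric.mem_ball_self hε⟩⟩

theorem le_S (h1 : ∀ x, φ x ≤ 1) {ε : ℝ} (hε : 0 < ε) (x : ℂ) : φ x ≤ S ε φ x :=
  le_ciSup (bdd h1 ε x) ⟨x, Metric.mem_ball_self hε⟩

theorem lt_S_iff (h1 : ∀ x, φ x ≤ 1) {ε : ℝ} (hε : 0 < ε) (t : ℝ) :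
    {x | t < S ε φ x} = Metric.thickening ε {x | t < φ x} := by
  ext x
  have := nonempty_ball hε x
  rw [Metric.mem_thickening_iff]
  change t < S ε φ x ↔ _
  rw [S, lt_ciSup_iff (bdd h1 ε x)]
  constructor
  · rintro ⟨⟨y, hy⟩, h⟩
    exact ⟨y, h, by rwa [dist_comm]⟩
  · rintro ⟨y, h, hy⟩
    exact ⟨⟨y, by rw [Metric.mem_ball, dist_comm]; exact hy⟩, h⟩

theorem measurable_S (h1 : ∀ x, φ x ≤ 1) {ε : ℝ} (hε : 0 < ε) : Measurable (S ε φ) := by
  refine measurable_of_Ioi fun t => ?_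
  have : S ε φ ⁻¹' Ioi t = {x | t < S ε φ x} := rfl
  rw [this, lt_S_iff h1 hε]
  exact Metric.isOpen_thickening.measurableSet

theorem S_le {ε : ℝ} (hε : 0 < ε) (x : ℂ) (c : ℝ) (h : ∀ y, dist y x < ε → φ y ≤ c) :
    S ε φ x ≤ c := by
  have := nonempty_ball hε x
  exact ciSup_le fun y => h y y.2

theorem bounded_pos (hc : HasCompactSupport φ) : Bornology.IsBounded {x | 0 < φ x} := by
  refine hc.isCompact.isBounded.subset fun x hx => ?_
  exact subset_tsupport φ (by rw [Function.mem_support]; exact (ne_of_gt hx))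

/-- the measure of the thickened level sets -/
theorem level (hφ : Continuous φ) (hc : HasCompactSupport φ) (h1 : ∀ x, φ x ≤ 1)
    (ha : 0 < volume.real {x | φ x = 1}) {ε : ℝ} (hε : 0 < ε) {t : ℝ} (ht0 : 0 < t) (ht1 : t < 1) :
    volume {x | t < φ x} + ENNReal.ofReal (2 * √Real.pi * √(volume.real {x | φ x = 1}) * ε) ≤
      volume {x | t < S ε φ x} := by
  have hb : Bornology.IsBounded {x | t < φ x} :=
    (bounded_pos hc).subset fun x hx => ht0.trans hx
  have hsub : {x | φ x = 1} ⊆ {x | t < φ x} := by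
    intro x hx
    simp only [mem_ofPred_eq] at hx ⊢
    rw [hx]
    exact ht1
  have htop : volume {x | t < φ x} ≠ ⊤ := hb.measure_lt_top.ne
  have hle : volume.real {x | φ x = 1} ≤ (volume {x | t < φ x}).toReal :=
    ENNReal.toReal_mono htop (measure_mono hsub)
  have hne : volume {x | t < φ x} ≠ 0 := by
    intro h
    rw [h, ENNReal.toReal_zero] at hle
    linarith
  have ho : IsOpen {x | t < φ x} := isOpen_lt continuous_const hφ
  have h := thick _ ho.measurableSet hb hne ε hε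
  rw [lt_S_iff h1 hε]
  set m := (volume {x | t < φ x}).toReal with hm
  have hm0 : 0 ≤ m := ENNReal.toReal_nonneg
  have hs : √(volume.real {x | φ x = 1}) ≤ √m := Real.sqrt_le_sqrt hle
  have htop' : volume (Metric.thickening ε {x | t < φ x}) ≠ ⊤ := hb.thickening.measure_lt_top.ne
  rw [← ENNReal.ofReal_toReal htop, ← ENNReal.ofReal_toReal htop', ← ENNReal.ofReal_add hm0
    (by positivity)]
  refine ENNReal.ofReal_le_ofReal (le_trans ?_ h)
  have k1 := Real.sq_sqrt hm0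
  have k2 : 0 ≤ √Real.pi := Real.sqrt_nonneg _
  have k3 : √Real.pi * ε * √(volume.real {x | φ x = 1}) ≤ √Real.pi * ε * √m :=
    mul_le_mul_of_nonneg_left hs (by positivity)
  nlinarith [sq_nonneg (√Real.pi * ε)]

theorem lint_S (hφ : Continuous φ) (hc : HasCompactSupport φ) (h0 : ∀ x, 0 ≤ φ x)
    (h1 : ∀ x, φ x ≤ 1) (ha : 0 < volume.real {x | φ x = 1}) {ε : ℝ} (hε : 0 < ε) :
    (∫⁻ x, ENNReal.ofReal (φ x)) +
      ENNReal.ofReal (2 * √Real.pi * √(volume.real {x | φ x = 1}) * ε) ≤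
      ∫⁻ x, ENNReal.ofReal (S ε φ x) := by
  set c := ENNReal.ofReal (2 * √Real.pi * √(volume.real {x | φ x = 1}) * ε) with hcdef
  rw [lintegral_eq_lintegral_meas_lt volume (Filter.Eventually.of_forall h0)
    hφ.measurable.aemeasurable,
    lintegral_eq_lintegral_meas_lt volume
      (Filter.Eventually.of_forall fun x => (h0 x).trans (le_S h1 hε x))
      (measurable_S h1 hε).aemeasurable]
  have e2 : Ioi (0 : ℝ) = Ioo 0 1 ∪ Ici 1 := by
    ext t
    simp only [mem_Ioi, mem_union, mem_Ioo, mem_Ici]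
    constructor
    · intro h
      rcases lt_or_ge t 1 with h' | h'
      · exact Or.inl ⟨h, h'⟩
      · exact Or.inr h'
    · rintro (h | h)
      · exact h.1
      · linarith
  have hd : Disjoint (Ioo (0 : ℝ) 1) (Ici 1) := by
    rw [Set.disjoint_left]
    intro t ht ht'
    exact absurd ht.2 (not_lt.2 ht')
  have e3 : ∫⁻ t in Ioi (0 : ℝ), volume {a | t < φ a} =
      ∫⁻ t in Ioo (0 : ℝ) 1, volume {a | t < φ a} := by
    rw [e2, lintegral_union measurableSet_Ici hd]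
    have e4 : ∫⁻ t in Ici (1 : ℝ), volume {a | t < φ a} = 0 := by
      rw [setLIntegral_congr_fun (g := fun _ => 0) measurableSet_Ici]
      · simp
      · intro t ht
        have : {a | t < φ a} = ∅ := by
          ext a
          simp only [mem_ofPred_eq, mem_empty_iff_false, iff_false, not_lt]
          exact (h1 a).trans ht
        simp only [this, measure_empty]
    rw [e4, add_zero]
  rw [e3]
  calc (∫⁻ t in Ioo (0 : ℝ) 1, volume {a | t < φ a}) + c
      = ∫⁻ t in Ioo (0 : ℝ) 1, (volume {a | t < φ a} + c) := by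
        rw [lintegral_add_right _ measurable_const]
        congr 1
        rw [lintegral_const, Measure.restrict_apply_univ, Real.volume_Ioo]
        simp
    _ ≤ ∫⁻ t in Ioo (0 : ℝ) 1, volume {a | t < S ε φ a} :=
        setLIntegral_mono' measurableSet_Ioo fun t ht => level hφ hc h1 ha hε ht.1 ht.2
    _ ≤ ∫⁻ t in Ioi (0 : ℝ), volume {a | t < S ε φ a} :=
        lintegral_mono_set fun t ht => ht.1

theorem lint_diff (hφ : Continuous φ) (hc : HasCompactSupport φ) (h0 : ∀ x, 0 ≤ φ x)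
    (h1 : ∀ x, φ x ≤ 1) (ha : 0 < volume.real {x | φ x = 1}) {ε : ℝ} (hε : 0 < ε) :
    ENNReal.ofReal (2 * √Real.pi * √(volume.real {x | φ x = 1})) ≤
      ∫⁻ x, ENNReal.ofReal ((S ε φ x - φ x) / ε) := by
  have h := lint_S hφ hc h0 h1 ha hε
  have e1 : ∫⁻ x, ENNReal.ofReal (S ε φ x) =
      (∫⁻ x, ENNReal.ofReal (φ x)) +
        ENNReal.ofReal ε * ∫⁻ x, ENNReal.ofReal ((S ε φ x - φ x) / ε) := by
    rw [← lintegral_const_mul' _ _ ENNReal.ofReal_ne_top,
      ← lintegral_add_left hφ.measurable.ennreal_ofReal]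
    refine lintegral_congr fun x => ?_
    rw [← ENNReal.ofReal_mul hε.le, ← ENNReal.ofReal_add (h0 x)]
    · congr 1
      field_simp
      ring
    · rw [mul_div_cancel₀ _ hε.ne']
      exact sub_nonneg.2 (le_S h1 hε x)
  have hfin : ∫⁻ x, ENNReal.ofReal (φ x) ≠ ⊤ := by
    have h2 : Integrable φ := hφ.integrable_of_hasCompactSupport hc
    rw [← ofReal_integral_eq_lintegral_ofReal h2 (Filter.Eventually.of_forall h0)]
    exact ENNReal.ofReal_ne_top
  rw [e1, ENNReal.add_le_add_iff_left hfin, mul_comm _ ε, ENNReal.ofReal_mul hε.le] at h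
  exact (ENNReal.mul_le_mul_iff_right (by simpa using hε) ENNReal.ofReal_ne_top).1 h

theorem S_sub_le (hφ : LipschitzWith K φ) {ε : ℝ} (hε : 0 < ε) (x : ℂ) :
    (S ε φ x - φ x) / ε ≤ K := by
  rw [div_le_iff₀ hε, sub_le_iff_le_add]
  refine S_le hε x _ fun y hy => ?_
  have h := hφ.dist_le_mul y x
  rw [Real.dist_eq] at h
  have h2 := (abs_le.1 h).2
  have h3 : (K : ℝ) * dist y x ≤ K * ε := mul_le_mul_of_nonneg_left hy.le K.2
  linarith

theorem S_eq_zero (h0 : ∀ x, 0 ≤ φ x) (h1 : ∀ x, φ x ≤ 1) {R : ℝ}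
    (hR : ∀ x, R < ‖x‖ → φ x = 0) {ε : ℝ} (hε : 0 < ε) (hε1 : ε ≤ 1) (x : ℂ) (hx : R + 1 < ‖x‖) :
    S ε φ x = 0 := by
  apply le_antisymm
  · refine S_le hε x _ fun y hy => ?_
    rw [hR y]
    have h2 : ‖x‖ - ‖y‖ ≤ ‖x - y‖ := norm_sub_norm_le x y
    rw [dist_comm, dist_eq_norm] at hy
    linarith
  · exact (h0 x).trans (le_S h1 hε x)

theorem limsup_le (x : ℂ) (hd : DifferentiableAt ℝ φ x) :
    limsup (fun n : ℕ => ENNReal.ofReal ((S (1 / (n + 1 : ℝ)) φ x - φ x) / (1 / (n + 1 : ℝ))))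
      atTop ≤ ENNReal.ofReal ‖fderiv ℝ φ x‖ := by
  refine ENNReal.le_of_forall_pos_le_add fun η hη _ => ?_
  have hη' : (0 : ℝ) < η := hη
  refine Filter.limsup_le_of_le (by isBoundedDefault) ?_
  have hlo := hd.hasFDerivAt.isLittleO
  rw [Asymptotics.isLittleO_iff] at hlo
  obtain ⟨δ, hδ, hb⟩ := Metric.eventually_nhds_iff.1 (hlo hη')
  have hlim : Tendsto (fun n : ℕ => 1 / ((n : ℝ) + 1)) atTop (𝓝 0) :=
    tendsto_one_div_add_atTop_nhds_zero_nat
  filter_upwards [hlim.eventually (gt_mem_nhds hδ)] with n hn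
  have hε : (0 : ℝ) < 1 / ((n : ℝ) + 1) := by positivity
  set ε := 1 / ((n : ℝ) + 1) with hεd
  have key : S ε φ x ≤ φ x + (‖fderiv ℝ φ x‖ + η) * ε := by
    refine S_le hε x _ fun y hy => ?_
    have h3 := hb (hy.trans hn)
    rw [Real.norm_eq_abs] at h3
    have h4 := (abs_le.1 h3).2
    have h5 : fderiv ℝ φ x (y - x) ≤ ‖fderiv ℝ φ x‖ * ‖y - x‖ :=
      (le_abs_self _).trans ((fderiv ℝ φ x).le_opNorm _)
    have h6 : ‖y - x‖ ≤ ε := by rw [← dist_eq_norm]; exact hy.le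
    have h7 : (‖fderiv ℝ φ x‖ + η) * ‖y - x‖ ≤ (‖fderiv ℝ φ x‖ + η) * ε :=
      mul_le_mul_of_nonneg_left h6 (by positivity)
    linarith
  have h8 : (S ε φ x - φ x) / ε ≤ ‖fderiv ℝ φ x‖ + η := by
    rw [div_le_iff₀ hε]
    linarith
  refine (ENNReal.ofReal_le_ofReal h8).trans ?_
  rw [ENNReal.ofReal_add (norm_nonneg _) hη'.le]
  exact le_of_eq (by rw [ENNReal.ofReal_coe_nnreal])

theorem iso (hφ : LipschitzWith K φ) (hc : HasCompactSupport φ) (h0 : ∀ x, 0 ≤ φ x)
    (h1 : ∀ x, φ x ≤ 1) (ha : 0 < volume.real {x | φ x = 1}) :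
    ENNReal.ofReal (2 * √Real.pi * √(volume.real {x | φ x = 1})) ≤
      ∫⁻ x, ENNReal.ofReal ‖fderiv ℝ φ x‖ := by
  have hcont := hφ.continuous
  obtain ⟨R, hR⟩ := hc.isCompact.isBounded.subset_closedBall (0 : ℂ)
  have hR' : ∀ x, R < ‖x‖ → φ x = 0 := by
    intro x hx
    by_contra hne
    have h2 := hR (subset_tsupport φ (Function.mem_support.2 hne))
    rw [mem_closedBall_zero_iff] at h2
    linarith
  set Φ : ℕ → ℂ → ℝ≥0∞ := fun n x =>
    ENNReal.ofReal ((S (1 / (n + 1 : ℝ)) φ x - φ x) / (1 / (n + 1 : ℝ))) with hΦ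
  have hεpos : ∀ n : ℕ, (0 : ℝ) < 1 / ((n : ℝ) + 1) := fun n => by positivity
  have hε1 : ∀ n : ℕ, 1 / ((n : ℝ) + 1) ≤ 1 := fun n => by
    rw [div_le_one (by positivity)]
    have : (0 : ℝ) ≤ n := Nat.cast_nonneg n
    linarith
  set B : ℂ → ℝ≥0∞ := (Metric.closedBall (0 : ℂ) (R + 1)).indicator fun _ => (K : ℝ≥0∞) with hB
  have hmeas : ∀ n, Measurable (Φ n) := fun n =>
    (((measurable_S h1 (hεpos n)).sub hcont.measurable).div_const _).ennreal_ofReal
  have hbound : ∀ n, Φ n ≤ᵐ[volume] B := by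
    intro n
    refine Filter.Eventually.of_forall fun x => ?_
    simp only [hΦ, hB]
    by_cases hx : x ∈ Metric.closedBall (0 : ℂ) (R + 1)
    · rw [indicator_of_mem hx]
      rw [← ENNReal.ofReal_coe_nnreal]
      exact ENNReal.ofReal_le_ofReal (S_sub_le hφ (hεpos n) x)
    · rw [indicator_of_notMem hx]
      rw [mem_closedBall_zero_iff, not_le] at hx
      rw [S_eq_zero h0 h1 hR' (hεpos n) (hε1 n) x hx, hR' x (by linarith)]
      simp
  have hfin : ∫⁻ x, B x ≠ ⊤ := by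
    rw [hB, lintegral_indicator measurableSet_closedBall, lintegral_const,
      Measure.restrict_apply_univ]
    exact ENNReal.mul_ne_top ENNReal.coe_ne_top (Metric.isBounded_closedBall.measure_lt_top.ne)
  have hl := limsup_lintegral_le B hmeas hbound hfin
  have hlow : ENNReal.ofReal (2 * √Real.pi * √(volume.real {x | φ x = 1})) ≤
      limsup (fun n => ∫⁻ x, Φ n x) atTop := by
    refine Filter.le_limsup_of_frequently_le ?_ (by isBoundedDefault)
    exact Filter.Frequently.of_forall fun n => lint_diff hcont hc h0 h1 ha (hεpos n)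
  refine hlow.trans (hl.trans (lintegral_mono_ae ?_))
  filter_upwards [hφ.ae_differentiableAt] with x hx
  exact limsup_le x hx

end

end FK4
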