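import Mathlib
import Pool.Agent.Lib.FK4.Sup

/-!
# The capacity inequality

`cap`: `4 π |{φ = 1}| ≤ |{0 < φ < 1}| ∫_{0 < φ < 1} |∇φ|²` for a Lipschitz function `φ` with compact
support and values in `[0, 1]`.
-/

set_option autoImplicit false

open MeasureTheory Set Filter Topology

open scoped ENNReal NNReal

namespace FK4

/-- Cauchy-Schwarz on a set of finite measure -/
theorem cs {U : Set ℂ} (hU : volume U ≠ ⊤) {f : ℂ → ℝ} (hf : IntegrableOn f U)
    (hf2 : IntegrableOn (fun x => f x ^ 2) U) :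
    (∫ x in U, f x) ^ 2 ≤ volume.real U * ∫ x in U, f x ^ 2 := by
  have hconst : ∀ c : ℝ, IntegrableOn (fun _ : ℂ => c) U := fun c => integrableOn_const hU
  have key : ∀ s : ℝ, 0 ≤ (∫ x in U, f x ^ 2) - 2 * s * (∫ x in U, f x) + s ^ 2 * volume.real U := by
    intro s
    have h1 : 0 ≤ ∫ x in U, (f x - s) ^ 2 := integral_nonneg fun x => sq_nonneg _
    have h2 : ∫ x in U, (f x - s) ^ 2 =
        (∫ x in U, f x ^ 2) - 2 * s * (∫ x in U, f x) + s ^ 2 * volume.real U := by
      have e : (fun x => (f x - s) ^ 2) = fun x => (f x ^ 2 - 2 * s * f x) + s ^ 2 := by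
        funext x; ring
      have i1 : IntegrableOn (fun x => 2 * s * f x) U := hf.const_mul (2 * s)
      have i2 : IntegrableOn (fun x => f x ^ 2 - 2 * s * f x) U := hf2.sub i1
      rw [e, integral_add i2 (hconst _), integral_sub hf2 i1, integral_const_mul,
        setIntegral_const, smul_eq_mul]
      ring
    rwa [h2] at h1
  set V := volume.real U with hV
  set a := ∫ x in U, f x with ha
  set b := ∫ x in U, f x ^ 2 with hb
  have hV0 : 0 ≤ V := measureReal_nonneg
  rcases eq_or_lt_of_le hV0 with h0 | h0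
  · have : a = 0 := by
      have hnull : volume U = 0 := by
        rw [hV, measureReal_def] at h0
        rcases (ENNReal.toReal_eq_zero_iff _).1 h0.symm with h | h
        · exact h
        · exact absurd h hU
      rw [ha, Measure.restrict_eq_zero.2 hnull, integral_zero_measure]
    rw [this, ← h0]
    simp
  · have h := key (a / V)
    have e : b - 2 * (a / V) * a + (a / V) ^ 2 * V = b - a ^ 2 / V := by
      field_simp
      ring
    rw [e, sub_nonneg, div_le_iff₀ h0] at h
    linarith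

variable {φ : ℂ → ℝ} {K : ℝ≥0}

theorem norm_fderiv_le (hφ : LipschitzWith K φ) (x : ℂ) : ‖fderiv ℝ φ x‖ ≤ K :=
  norm_fderiv_le_of_lipschitz ℝ hφ

theorem fderiv_zero_of_not_mem (h0 : ∀ x, 0 ≤ φ x) (h1 : ∀ x, φ x ≤ 1) (x : ℂ)
    (hx : x ∉ {x | 0 < φ x ∧ φ x < 1}) : fderiv ℝ φ x = 0 := by
  rcases lt_or_eq_of_le (h0 x) with h | h
  · have h2 : φ x = 1 := by
      by_contra hne
      exact hx ⟨h, lt_of_le_of_ne (h1 x) hne⟩
    have : IsLocalMax φ x := Filter.Eventually.of_forall fun y => by rw [h2]; exact h1 y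
    exact this.fderiv_eq_zero
  · have : IsLocalMin φ x := Filter.Eventually.of_forall fun y => by rw [← h]; exact h0 y
    exact this.fderiv_eq_zero

theorem integrable_grad (hφ : LipschitzWith K φ) {U : Set ℂ} (hU : volume U ≠ ⊤) :
    IntegrableOn (fun x => ‖fderiv ℝ φ x‖) U ∧ IntegrableOn (fun x => ‖fderiv ℝ φ x‖ ^ 2) U := by
  have hmeas : Measurable fun x => ‖fderiv ℝ φ x‖ := (measurable_fderiv ℝ φ).norm
  constructor
  · refine Measure.integrableOn_of_bounded (M := K) hU hmeas.aestronglyMeasurable ?_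
    refine Filter.Eventually.of_forall fun x => ?_
    rw [norm_norm]
    exact norm_fderiv_le hφ x
  · refine Measure.integrableOn_of_bounded (M := (K : ℝ) ^ 2) hU
      (hmeas.pow_const 2).aestronglyMeasurable ?_
    refine Filter.Eventually.of_forall fun x => ?_
    rw [norm_pow, norm_norm]
    exact pow_le_pow_left₀ (norm_nonneg _) (norm_fderiv_le hφ x) 2

theorem cap (hφ : LipschitzWith K φ) (hc : HasCompactSupport φ) (h0 : ∀ x, 0 ≤ φ x)
    (h1 : ∀ x, φ x ≤ 1) :
    4 * Real.pi * volume.real {x | φ x = 1} ≤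
      volume.real {x | 0 < φ x ∧ φ x < 1} *
        ∫ x in {x | 0 < φ x ∧ φ x < 1}, ‖fderiv ℝ φ x‖ ^ 2 := by
  set U := {x | 0 < φ x ∧ φ x < 1} with hU
  have hcont := hφ.continuous
  have hUb : Bornology.IsBounded U := (bounded_pos hc).subset fun x hx => hx.1
  have hUtop : volume U ≠ ⊤ := hUb.measure_lt_top.ne
  have hUo : IsOpen U := (isOpen_lt continuous_const hcont).inter (isOpen_lt hcont continuous_const)
  have hI0 : 0 ≤ ∫ x in U, ‖fderiv ℝ φ x‖ ^ 2 := integral_nonneg fun x => sq_nonneg _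
  rcases eq_or_lt_of_le (measureReal_nonneg (μ := volume) (s := {x | φ x = 1})) with ha | ha
  · rw [← ha, mul_zero]
    exact mul_nonneg measureReal_nonneg hI0
  have h := iso hφ hc h0 h1 ha
  obtain ⟨i1, i2⟩ := integrable_grad hφ hUtop
  have e1 : ∫⁻ x, ENNReal.ofReal ‖fderiv ℝ φ x‖ = ENNReal.ofReal (∫ x in U, ‖fderiv ℝ φ x‖) := by
    rw [ofReal_integral_eq_lintegral_ofReal i1 (Filter.Eventually.of_forall fun x => norm_nonneg _),
      ← lintegral_indicator hUo.measurableSet]
    refine lintegral_congr fun x => ?_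
    by_cases hx : x ∈ U
    · rw [indicator_of_mem hx]
    · rw [indicator_of_notMem hx, fderiv_zero_of_not_mem h0 h1 x hx]
      simp
  rw [e1, ENNReal.ofReal_le_ofReal_iff (integral_nonneg fun x => norm_nonneg _)] at h
  have h2 := cs hUtop i1 i2
  have h3 : (2 * √Real.pi * √(volume.real {x | φ x = 1})) ^ 2 ≤ (∫ x in U, ‖fderiv ℝ φ x‖) ^ 2 :=
    pow_le_pow_left₀ (by positivity) h 2
  have h4 : (2 * √Real.pi * √(volume.real {x | φ x = 1})) ^ 2 =
      4 * Real.pi * volume.real {x | φ x = 1} := by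
    rw [mul_pow, mul_pow, Real.sq_sqrt Real.pi_pos.le, Real.sq_sqrt ha.le]
    ring
  rw [h4] at h3
  exact h3.trans h2

end FK4
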