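import Mathlib
import Pool.Agent.Lib.FK4.Cap
import Pool.Agent.Lib.FK4.Bes

/-!
# Faber-Krahn from strips

`fkk`: the Faber-Krahn inequality with a constant `κ` from the capacity inequalities of the strips
`{s < f < t}`, by the discrete Riccati argument.
-/

set_option autoImplicit false

open MeasureTheory Set Filter Topology

open scoped ENNReal NNReal

namespace FK4

open DK4

/-- a superadditive function of intervals, small on short intervals, is nonnegative -/
theorem limit_lemma (Φ : ℝ → ℝ → ℝ) (m : ℝ → ℝ) (A B C1 C2 : ℝ) (hAB : A ≤ B)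
    (hsup : ∀ a b c, A ≤ a → a ≤ b → b ≤ c → c ≤ B → Φ a b + Φ b c ≤ Φ a c)
    (h : ∀ a b, A ≤ a → a ≤ b → b ≤ B → -C1 * (b - a) ^ 2 - C2 * (b - a) * (m a - m b) ≤ Φ a b) :
    0 ≤ Φ A B := by
  have key : ∀ N : ℕ, 0 < N →
      -C1 * (B - A) ^ 2 / N - C2 * (B - A) * (m A - m B) / N ≤ Φ A B := by
    intro N hN
    have hN' : (0 : ℝ) < N := by exact_mod_cast hN
    set d := (B - A) / N with hd
    have hd0 : 0 ≤ d := div_nonneg (by linarith) hN'.le
    have hNd : N * d = B - A := by rw [hd]; field_simp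
    have ind : ∀ n : ℕ, n ≤ N → -C1 * n * d ^ 2 - C2 * d * (m A - m (A + n * d)) ≤
        Φ A (A + n * d) := by
      intro n
      induction n with
      | zero =>
        intro _
        have := h A A le_rfl le_rfl hAB
        simp only [Nat.cast_zero, zero_mul, add_zero, mul_zero, sub_self] at this ⊢
        linarith [this]
      | succ n ih =>
        intro hn
        have h1 := ih (by omega)
        have hnN : ((n : ℝ) + 1) ≤ N := by exact_mod_cast hn
        have e1 : A + ((n : ℝ) + 1) * d ≤ B := by nlinarith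
        have e2 : A + (n : ℝ) * d ≤ A + ((n : ℝ) + 1) * d := by nlinarith
        have e3 : A ≤ A + (n : ℝ) * d := by
          have : (0 : ℝ) ≤ n * d := by positivity
          linarith
        have h2 := h (A + n * d) (A + ((n : ℝ) + 1) * d) e3 e2 e1
        have h3 := hsup A (A + n * d) (A + ((n : ℝ) + 1) * d) le_rfl e3 e2 e1
        have e4 : A + ((n : ℝ) + 1) * d - (A + n * d) = d := by ring
        rw [e4] at h2
        push_cast
        nlinarith
    have h4 := ind N le_rfl
    rw [hNd] at h4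
    have e5 : A + (B - A) = B := by ring
    rw [e5] at h4
    have e6 : -C1 * (B - A) ^ 2 / N = -C1 * N * d ^ 2 := by
      rw [hd]; field_simp
    have e7 : C2 * (B - A) * (m A - m B) / N = C2 * d * (m A - m B) := by
      rw [hd]; field_simp
    rw [e6, e7]
    exact h4
  have hlim : Tendsto (fun N : ℕ => -C1 * (B - A) ^ 2 / (N : ℝ) -
      C2 * (B - A) * (m A - m B) / (N : ℝ)) atTop (𝓝 (0 - 0)) :=
    (tendsto_const_div_atTop_nhds_zero_nat _).sub (tendsto_const_div_atTop_nhds_zero_nat _)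
  rw [sub_zero] at hlim
  refine le_of_tendsto hlim ?_
  filter_upwards [eventually_gt_atTop 0] with N hN
  exact key N hN

/-- the algebra of one strip -/
theorem step_alg {κ E sa sb a b g ga k : ℝ} (hκ : 0 < κ) (hE : 0 ≤ E) (hsb : 0 ≤ sb)
    (hs : sb ≤ sa) (hab : a < b) (hg : sb * k = g ^ 2) (hk : 0 ≤ k)
    (hmono : k * (sa - sb) ≤ (ga - sa) - (g - sb))
    (H : 4 * Real.pi * κ * sb * (b - a) ^ 2 ≤ (sa - sb) * E) :
    4 * Real.pi * κ * (b ^ 2 * g - a ^ 2 * ga - (b - a) ^ 2 * g + a ^ 2 * (sa - sb)) ≤ E := by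
  have hpi := Real.pi_pos
  set c := 4 * Real.pi * κ with hc
  have hc0 : 0 < c := by positivity
  have key : c * (2 * a * g * (b - a) - a ^ 2 * (k * (sa - sb))) ≤ E := by
    rcases eq_or_lt_of_le hsb with h0 | h0
    · have hg0 : g = 0 := by
        rw [← h0, zero_mul] at hg
        exact pow_eq_zero_iff (two_ne_zero) |>.1 hg.symm
      rw [hg0]
      have : 0 ≤ a ^ 2 * (k * (sa - sb)) :=
        mul_nonneg (sq_nonneg _) (mul_nonneg hk (sub_nonneg.2 hs))
      nlinarith
    · have hy : 0 < sa - sb := by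
        rcases eq_or_lt_of_le (sub_nonneg.2 hs) with h1 | h1
        · rw [← h1, zero_mul] at H
          have : 0 < c * sb * (b - a) ^ 2 := by
            have : 0 < b - a := by linarith
            positivity
          linarith
        · exact h1
      -- multiply by `sb * (sa - sb)`
      have h2 : (sb * (sa - sb)) * (c * (2 * a * g * (b - a) - a ^ 2 * (k * (sa - sb)))) ≤
          (sb * (sa - sb)) * E := by
        have h3 : sb * (c * sb * (b - a) ^ 2) ≤ sb * ((sa - sb) * E) :=
          mul_le_mul_of_nonneg_left H hsb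
        have h4 : 0 ≤ c * (sb * (b - a) - a * g * (sa - sb)) ^ 2 := by positivity
        have h5 : (sb * (sa - sb)) * (c * (2 * a * g * (b - a) - a ^ 2 * (k * (sa - sb)))) =
            sb * (c * sb * (b - a) ^ 2) - c * (sb * (b - a) - a * g * (sa - sb)) ^ 2 -
              c * a ^ 2 * (sa - sb) ^ 2 * (sb * k - g ^ 2) := by ring
        rw [h5, hg, sub_self, mul_zero, sub_zero]
        linarith
      exact le_of_mul_le_mul_left h2 (mul_pos h0 hy)
  have h6 : a ^ 2 * (k * (sa - sb)) ≤ a ^ 2 * ((ga - sa) - (g - sb)) :=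
    mul_le_mul_of_nonneg_left hmono (sq_nonneg _)
  have h7 : b ^ 2 * g - a ^ 2 * ga - (b - a) ^ 2 * g + a ^ 2 * (sa - sb) ≤
      2 * a * g * (b - a) - a ^ 2 * (k * (sa - sb)) := by nlinarith
  exact (mul_le_mul_of_nonneg_left h7 hc0.le).trans key

section

variable {f : ℂ → ℝ}

/-- energy of a strip -/
noncomputable def En (f : ℂ → ℝ) (a b : ℝ) : ℝ :=
  ∫ z in {z | a < f z ∧ f z < b}, ‖fderiv ℝ f z‖ ^ 2

/-- mass of a strip -/
noncomputable def Ln (f : ℂ → ℝ) (a b : ℝ) : ℝ := ∫ z in {z | a < f z ∧ f z ≤ b}, f z ^ 2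

/-- measure of the level set -/
noncomputable def mu (f : ℂ → ℝ) (t : ℝ) : ℝ := volume.real {z | t < f z}

theorem integrable_fderiv_sq (hf : Adm f) : Integrable fun z => ‖fderiv ℝ f z‖ ^ 2 := by
  obtain ⟨K, hK⟩ := hf.lip
  have hc := hf.cpt
  have h1 := (integrable_grad hK (hc.isCompact.measure_lt_top (μ := volume)).ne).2
  rw [← integrableOn_iff_integrable_of_support_subset (s := tsupport f)]
  · exact h1
  · intro z hz
    by_contra hn
    apply hz
    have : fderiv ℝ f z = 0 := by
      have hsub := support_fderiv_subset ℝ (f := f)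
      by_contra hne
      exact hn (hsub hne)
    simp [this]

theorem integrable_sq (hf : Adm f) : Integrable fun z => f z ^ 2 := by
  obtain ⟨K, hK⟩ := hf.lip
  refine (hK.continuous.pow 2).integrable_of_hasCompactSupport ?_
  have := hf.cpt.comp_left (g := fun x : ℝ => x ^ 2) (by simp)
  exact this

theorem cont (hf : Adm f) : Continuous f := by
  obtain ⟨K, hK⟩ := hf.lip
  exact hK.continuous

theorem level_top (hf : Adm f) {t : ℝ} (ht : 0 ≤ t) : volume {z | t < f z} ≠ ⊤ :=
  ((bounded_pos hf.cpt).subset fun _ hx => ht.trans_lt hx).measure_lt_top.ne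

theorem mu_anti (hf : Adm f) {a b : ℝ} (ha : 0 ≤ a) (hab : a ≤ b) : mu f b ≤ mu f a :=
  measureReal_mono (fun _ hx => hab.trans_lt hx) (level_top hf ha)

theorem mu_nonneg (t : ℝ) : 0 ≤ mu f t := measureReal_nonneg

theorem meas_open (hf : Adm f) (a b : ℝ) : MeasurableSet {z | a < f z ∧ f z < b} :=
  ((isOpen_lt continuous_const (cont hf)).inter
    (isOpen_lt (cont hf) continuous_const)).measurableSet

theorem meas_half (hf : Adm f) (a b : ℝ) : MeasurableSet {z | a < f z ∧ f z ≤ b} :=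
  (isOpen_lt continuous_const (cont hf)).measurableSet.inter
    (isClosed_le (cont hf) continuous_const).measurableSet

theorem En_nonneg (a b : ℝ) : 0 ≤ En f a b := integral_nonneg fun _ => sq_nonneg _

theorem En_add (hf : Adm f) {a b c : ℝ} (hab : a ≤ b) (hbc : b ≤ c) :
    En f a b + En f b c ≤ En f a c := by
  have hi := integrable_fderiv_sq hf
  unfold En
  rw [← setIntegral_union (by
      rw [Set.disjoint_left]
      rintro z ⟨_, h2⟩ ⟨h3, _⟩
      exact lt_asymm h2 h3) (meas_open hf b c) hi.integrableOn hi.integrableOn]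
  refine setIntegral_mono_set hi.integrableOn (Filter.Eventually.of_forall fun _ => sq_nonneg _)
    (LE.le.eventuallyLE ?_)
  rintro z (⟨h1, h2⟩ | ⟨h1, h2⟩)
  · exact ⟨h1, h2.trans_le hbc⟩
  · exact ⟨hab.trans_lt h1, h2⟩

theorem En_le (hf : Adm f) (a b : ℝ) : En f a b ≤ ∫ z, ‖fderiv ℝ f z‖ ^ 2 :=
  setIntegral_le_integral (integrable_fderiv_sq hf) (Filter.Eventually.of_forall fun _ => sq_nonneg _)

theorem Ln_add (hf : Adm f) {a b c : ℝ} (hab : a ≤ b) (hbc : b ≤ c) :
    Ln f a b + Ln f b c = Ln f a c := by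
  have hi := integrable_sq hf
  unfold Ln
  rw [← setIntegral_union (by
      rw [Set.disjoint_left]
      rintro z ⟨_, h2⟩ ⟨h3, _⟩
      exact not_lt.2 h2 h3) (meas_half hf b c) hi.integrableOn hi.integrableOn]
  congr 2
  ext z
  constructor
  · rintro (⟨h1, h2⟩ | ⟨h1, h2⟩)
    · exact ⟨h1, h2.trans hbc⟩
    · exact ⟨hab.trans_lt h1, h2⟩
  · rintro ⟨h1, h2⟩
    rcases le_or_gt (f z) b with h | h
    · exact Or.inl ⟨h1, h⟩
    · exact Or.inr ⟨h, h2⟩

theorem Ln_le (hf : Adm f) {a b : ℝ} (ha : 0 ≤ a) (hab : a ≤ b) :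
    Ln f a b ≤ b ^ 2 * (mu f a - mu f b) := by
  have e1 : {z | a < f z ∧ f z ≤ b} = {z | a < f z} \ {z | b < f z} := by
    ext z
    simp only [mem_ofPred_eq, Set.mem_sdiff, not_lt]
  have e2 : mu f a - mu f b = volume.real {z | a < f z ∧ f z ≤ b} := by
    have hsub : {z | b < f z} ⊆ {z | a < f z} := fun _ hx => lt_of_le_of_lt hab hx
    rw [e1, measureReal_sdiff hsub (isOpen_lt continuous_const (cont hf)).measurableSet
      (level_top hf ha)]
    rfl
  have htop : volume {z | a < f z ∧ f z ≤ b} ≠ ⊤ :=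
    ne_top_of_le_ne_top (level_top hf ha) (measure_mono fun _ hx => hx.1)
  rw [e2]
  have h1 : Ln f a b ≤ ∫ _ in {z | a < f z ∧ f z ≤ b}, b ^ 2 := by
    refine setIntegral_mono_on (integrable_sq hf).integrableOn (integrableOn_const htop)
      (meas_half hf a b) ?_
    intro z hz
    exact pow_le_pow_left₀ (ha.trans hz.1.le) hz.2 2
  rw [setIntegral_const, smul_eq_mul, mul_comm] at h1
  exact h1

theorem fkk (hf : Adm f) (h0 : ∀ z, 0 ≤ f z) {κ T0 lam : ℝ} (hκ : 0 < κ) (hT0 : 0 ≤ T0)
    (H : ∀ s t, 0 ≤ s → s < t → (t ≤ T0 ∨ T0 ≤ s) →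
      4 * Real.pi * κ * volume.real {z | t < f z} * (t - s) ^ 2 ≤
        (volume.real {z | s < f z} - volume.real {z | t < f z}) *
          ∫ z in {z | s < f z ∧ f z < t}, ‖fderiv ℝ f z‖ ^ 2)
    (hlt : ∫ z, ‖fderiv ℝ f z‖ ^ 2 < κ * lam * ∫ z, f z ^ 2) :
    Real.pi * j01 ^ 2 ≤ lam * volume.real {z | 0 < f z} := by
  have hpi := Real.pi_pos
  have hI1 : 0 ≤ ∫ z, ‖fderiv ℝ f z‖ ^ 2 := integral_nonneg fun _ => sq_nonneg _
  have hI2 : 0 ≤ ∫ z, f z ^ 2 := integral_nonneg fun _ => sq_nonneg _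
  have hlam : 0 < lam := by
    by_contra hcon
    push Not at hcon
    have : κ * lam * ∫ z, f z ^ 2 ≤ 0 :=
      mul_nonpos_of_nonpos_of_nonneg (mul_nonpos_of_nonneg_of_nonpos hκ.le hcon) hI2
    linarith
  by_contra hcon
  push Not at hcon
  obtain ⟨G, K, hG0, hGK, hmono⟩ := exists_riccati
  obtain ⟨C, hC⟩ : ∃ C : ℝ, ∀ z, f z ≤ C := by
    obtain ⟨C, hC⟩ := (cont hf).bounded_above_of_compact_support hf.cpt
    exact ⟨C, fun z => (le_abs_self _).trans (hC z)⟩
  have hC0 : 0 ≤ C := (h0 0).trans (hC 0)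
  set s : ℝ → ℝ := fun t => lam * mu f t / (4 * Real.pi) with hs
  have hs0 : ∀ t, 0 ≤ s t := fun t => by
    have := mu_nonneg (f := f) t
    simp only [hs]
    positivity
  have hsanti : ∀ a b, 0 ≤ a → a ≤ b → s b ≤ s a := by
    intro a b ha hab
    have := mu_anti hf ha hab
    simp only [hs]
    gcongr
  have hs1 : ∀ t, 0 ≤ t → s t < j01 ^ 2 / 4 := by
    intro t ht
    refine (hsanti 0 t le_rfl ht).trans_lt ?_
    simp only [hs]
    have : lam * mu f 0 < Real.pi * j01 ^ 2 := hcon
    rw [div_lt_div_iff₀ (by positivity) (by norm_num)]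
    nlinarith
  set T1 := T0 + 1 + C with hT1
  have hT01 : T0 ≤ T1 := by linarith
  have hmT1 : mu f T1 = 0 := by
    have : {z | T1 < f z} = ∅ := by
      ext z
      simp only [mem_ofPred_eq, mem_empty_iff_false, iff_false, not_lt]
      have := hC z
      linarith
    rw [mu, this, measureReal_empty]
  have hsT1 : s T1 = 0 := by simp only [hs, hmT1]; simp
  set Φ : ℝ → ℝ → ℝ := fun a b => En f a b -
    4 * Real.pi * κ * (b ^ 2 * G (s b) - a ^ 2 * G (s a)) - κ * lam * Ln f a b with hΦ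
  have hsup : ∀ a b c, a ≤ b → b ≤ c → Φ a b + Φ b c ≤ Φ a c := by
    intro a b c hab hbc
    have h1 := En_add hf hab hbc
    have h2 := Ln_add hf hab hbc
    simp only [hΦ]
    rw [← h2]
    nlinarith
  have hGmono : ∀ a, 0 ≤ a → G (s a) ≤ G (s 0) := by
    intro a ha
    have h1 := hmono (s a) (s 0) (hs0 a) (hsanti 0 a le_rfl ha) (hs1 0 le_rfl)
    have h2 := (hGK (s a) (hs0 a) (hs1 a ha)).1
    have h3 : 0 ≤ K (s a) * (s 0 - s a) := mul_nonneg h2 (sub_nonneg.2 (hsanti 0 a le_rfl ha))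
    have h4 := hsanti 0 a le_rfl ha
    linarith
  have hlow : ∀ a b, 0 ≤ a → a ≤ b → b ≤ T1 → (b ≤ T0 ∨ T0 ≤ a) →
      -(4 * Real.pi * κ * G (s 0)) * (b - a) ^ 2 - (κ * lam * (2 * T1)) * (b - a) *
        (mu f a - mu f b) ≤ Φ a b := by
    intro a b ha hab hb hT
    rcases eq_or_lt_of_le hab with hab' | hab'
    · subst hab'
      have e1 : En f a a = 0 := by
        have : {z | a < f z ∧ f z < a} = ∅ := by
          ext z
          simp only [mem_ofPred_eq, mem_empty_iff_false, iff_false, not_and]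
          exact fun h h' => lt_asymm h h'
        rw [En, this, setIntegral_empty]
      have e2 : Ln f a a = 0 := by
        have : {z | a < f z ∧ f z ≤ a} = ∅ := by
          ext z
          simp only [mem_ofPred_eq, mem_empty_iff_false, iff_false, not_and, not_le]
          exact fun h => h
        rw [Ln, this, setIntegral_empty]
      simp only [hΦ, e1, e2]
      simp
    · have hHab := H a b ha hab' hT
      have hH' : 4 * Real.pi * κ * s b * (b - a) ^ 2 ≤ (s a - s b) * En f a b := by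
        have h1 : lam / (4 * Real.pi) * (4 * Real.pi * κ * mu f b * (b - a) ^ 2) ≤
            lam / (4 * Real.pi) * ((mu f a - mu f b) * En f a b) :=
          mul_le_mul_of_nonneg_left hHab (by positivity)
        have e1 : 4 * Real.pi * κ * s b * (b - a) ^ 2 =
            lam / (4 * Real.pi) * (4 * Real.pi * κ * mu f b * (b - a) ^ 2) := by
          simp only [hs]; ring
        have e2 : (s a - s b) * En f a b =
            lam / (4 * Real.pi) * ((mu f a - mu f b) * En f a b) := by
          simp only [hs]; ring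
        rw [e1, e2]
        exact h1
      obtain ⟨k1, k2, k3⟩ := hGK (s b) (hs0 b) (hs1 b (ha.trans hab))
      have h2 := step_alg (κ := κ) (E := En f a b) (sa := s a) (sb := s b) (a := a) (b := b)
        (g := G (s b)) (ga := G (s a)) (k := K (s b)) hκ (En_nonneg a b) (hs0 b)
        (hsanti a b ha hab) hab' k3 k1
        (hmono (s b) (s a) (hs0 b) (hsanti a b ha hab) (hs1 a ha)) hH'
      have h3 := Ln_le hf ha hab
      have h4 : 4 * Real.pi * κ * (a ^ 2 * (s a - s b)) = κ * lam * (a ^ 2 * (mu f a - mu f b)) := by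
        simp only [hs]
        field_simp
      have h5 : G (s b) ≤ G (s 0) := hGmono b (ha.trans hab)
      have h6 : 4 * Real.pi * κ * ((b - a) ^ 2 * G (s b)) ≤
          4 * Real.pi * κ * ((b - a) ^ 2 * G (s 0)) :=
        mul_le_mul_of_nonneg_left (mul_le_mul_of_nonneg_left h5 (sq_nonneg _)) (by positivity)
      have h7 : κ * lam * Ln f a b ≤ κ * lam * (b ^ 2 * (mu f a - mu f b)) :=
        mul_le_mul_of_nonneg_left h3 (by positivity)
      have h8 : 0 ≤ mu f a - mu f b := sub_nonneg.2 (mu_anti hf ha hab)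
      have h9 : (b ^ 2 - a ^ 2) * (mu f a - mu f b) ≤ 2 * T1 * (b - a) * (mu f a - mu f b) := by
        refine mul_le_mul_of_nonneg_right ?_ h8
        nlinarith
      have h10 : κ * lam * ((b ^ 2 - a ^ 2) * (mu f a - mu f b)) ≤
          κ * lam * (2 * T1 * (b - a) * (mu f a - mu f b)) :=
        mul_le_mul_of_nonneg_left h9 (by positivity)
      simp only [hΦ]
      linarith
  have hΦ1 : 0 ≤ Φ 0 T0 := by
    refine limit_lemma Φ (mu f) 0 T0 (4 * Real.pi * κ * G (s 0)) (κ * lam * (2 * T1)) hT0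
      (fun a b c _ hab hbc _ => hsup a b c hab hbc) ?_
    intro a b ha hab hb
    exact hlow a b ha hab (hb.trans hT01) (Or.inl hb)
  have hΦ2 : 0 ≤ Φ T0 T1 := by
    refine limit_lemma Φ (mu f) T0 T1 (4 * Real.pi * κ * G (s 0)) (κ * lam * (2 * T1)) hT01
      (fun a b c _ hab hbc _ => hsup a b c hab hbc) ?_
    intro a b ha hab hb
    exact hlow a b (hT0.trans ha) hab hb (Or.inr ha)
  have hΦ3 : 0 ≤ Φ 0 T1 := (add_nonneg hΦ1 hΦ2).trans (hsup 0 T0 T1 hT0 hT01)
  simp only [hΦ, hsT1, hG0] at hΦ3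
  have e3 : Ln f 0 T1 = ∫ z, f z ^ 2 := by
    rw [Ln]
    refine setIntegral_eq_integral_of_forall_compl_eq_zero fun z hz => ?_
    have hz' : ¬ (0 < f z) := fun h => hz ⟨h, by have := hC z; linarith⟩
    have : f z = 0 := le_antisymm (not_lt.1 hz') (h0 z)
    rw [this]
    ring
  rw [e3] at hΦ3
  have h11 := En_le hf 0 T1
  linarith

/-- the capacity inequality of a strip -/
theorem strip_cap (hf : Adm f) {s t : ℝ} (hs : 0 ≤ s) (hst : s < t) :
    4 * Real.pi * volume.real {z | t ≤ f z} * (t - s) ^ 2 ≤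
      volume.real {z | s < f z ∧ f z < t} *
        ∫ z in {z | s < f z ∧ f z < t}, ‖fderiv ℝ f z‖ ^ 2 := by
  obtain ⟨K, hK⟩ := hf.lip
  have hd : 0 < t - s := by linarith
  set c : ℝ := (t - s)⁻¹ with hc
  have hc0 : 0 < c := by positivity
  set φ : ℂ → ℝ := fun z => min 1 (max 0 (c • (f z - s))) with hφ
  have hφL : LipschitzWith (⟨c, hc0.le⟩ * K) φ := by
    have h1 : LipschitzWith (⟨c, hc0.le⟩ * K) fun z => c • (f z - s) := by
      refine LipschitzWith.of_dist_le_mul fun x y => ?_
      have h2 := hK.dist_le_mul x y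
      rw [Real.dist_eq] at h2 ⊢
      simp only [smul_eq_mul]
      rw [← mul_sub, abs_mul, abs_of_pos hc0]
      have e : f x - s - (f y - s) = f x - f y := by ring
      rw [e, NNReal.coe_mul, mul_assoc]
      exact mul_le_mul_of_nonneg_left h2 hc0.le
    exact (h1.const_max 0).const_min 1
  have hφc : HasCompactSupport φ := by
    have h1 := hf.cpt.comp_left (g := fun x : ℝ => min 1 (max 0 (c • (x - s)))) (by
      have : c • ((0 : ℝ) - s) ≤ 0 := by
        rw [smul_eq_mul]
        nlinarith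
      rw [max_eq_left this]
      simp)
    exact h1
  have hφ0 : ∀ z, 0 ≤ φ z := fun z => le_min zero_le_one (le_max_left _ _)
  have hφ1 : ∀ z, φ z ≤ 1 := fun z => min_le_left _ _
  have h := cap hφL hφc hφ0 hφ1
  have e1 : {z | φ z = 1} = {z | t ≤ f z} := by
    ext z
    simp only [mem_ofPred_eq, hφ, min_eq_left_iff, le_max_iff, smul_eq_mul]
    rw [hc, inv_mul_eq_div, le_div_iff₀ hd, one_mul]
    constructor
    · rintro (h | h)
      · norm_num at h
      · linarith
    · intro h
      exact Or.inr (by linarith)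
  have e2 : {z | 0 < φ z ∧ φ z < 1} = {z | s < f z ∧ f z < t} := by
    ext z
    simp only [mem_ofPred_eq, hφ, lt_min_iff, lt_max_iff, min_lt_iff, max_lt_iff, smul_eq_mul]
    rw [hc, inv_mul_eq_div, div_lt_one hd, lt_div_iff₀ hd, zero_mul]
    constructor
    · rintro ⟨⟨-, h1 | h1⟩, h2 | h2⟩
      · exact absurd h1 (lt_irrefl _)
      · exact absurd h1 (lt_irrefl _)
      · exact absurd h2 (lt_irrefl _)
      · exact ⟨by linarith, by linarith [h2.2]⟩
    · rintro ⟨h1, h2⟩
      exact ⟨⟨one_pos, Or.inr (by linarith)⟩, Or.inr ⟨one_pos, by linarith⟩⟩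
  rw [e1, e2] at h
  have e3 : ∫ z in {z | s < f z ∧ f z < t}, ‖fderiv ℝ φ z‖ ^ 2 =
      c ^ 2 * ∫ z in {z | s < f z ∧ f z < t}, ‖fderiv ℝ f z‖ ^ 2 := by
    rw [← integral_const_mul]
    refine setIntegral_congr_fun (meas_open hf s t) fun z hz => ?_
    have hev : φ =ᶠ[𝓝 z] fun z => c • (f z - s) := by
      have ho : IsOpen {z | s < f z ∧ f z < t} := (isOpen_lt continuous_const (cont hf)).inter
        (isOpen_lt (cont hf) continuous_const)
      filter_upwards [ho.mem_nhds hz] with w hw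
      have h1 : 0 ≤ c • (f w - s) := by
        rw [smul_eq_mul]
        have := hw.1
        exact mul_nonneg hc0.le (by linarith)
      have h2 : c • (f w - s) ≤ 1 := by
        rw [smul_eq_mul, hc, inv_mul_eq_div, div_le_one hd]
        have := hw.2
        linarith
      simp only [hφ]
      rw [max_eq_right h1, min_eq_right h2]
    have h3 : fderiv ℝ φ z = c • fderiv ℝ f z := by
      rw [hev.fderiv_eq]
      have h4 : (fun z => c • (f z - s)) = c • (fun z => f z - s) := rfl
      rw [h4, fderiv_const_smul_field, Pi.smul_apply, fderiv_sub_const]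
    simp only [h3, norm_smul, Real.norm_eq_abs, abs_of_pos hc0, mul_pow]
  rw [e3] at h
  have h5 : (t - s) ^ 2 * (4 * Real.pi * volume.real {z | t ≤ f z}) ≤
      (t - s) ^ 2 * (volume.real {z | s < f z ∧ f z < t} *
        (c ^ 2 * ∫ z in {z | s < f z ∧ f z < t}, ‖fderiv ℝ f z‖ ^ 2)) :=
    mul_le_mul_of_nonneg_left h (sq_nonneg _)
  have e4 : (t - s) ^ 2 * (volume.real {z | s < f z ∧ f z < t} *
        (c ^ 2 * ∫ z in {z | s < f z ∧ f z < t}, ‖fderiv ℝ f z‖ ^ 2)) =
      volume.real {z | s < f z ∧ f z < t} *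
        ∫ z in {z | s < f z ∧ f z < t}, ‖fderiv ℝ f z‖ ^ 2 := by
    rw [hc]
    field_simp
  rw [e4] at h5
  linarith

/-- the Faber-Krahn inequality -/
theorem fk (hf : Adm f) (h0 : ∀ z, 0 ≤ f z) {lam : ℝ} (hlt : q lam f < 0) :
    Real.pi * j01 ^ 2 ≤ lam * volume.real {z | 0 < f z} := by
  refine fkk hf h0 (κ := 1) (T0 := 0) (lam := lam) one_pos le_rfl ?_ ?_
  · intro s t hs hst _
    have h := strip_cap hf hs hst
    have h1 : volume.real {z | t < f z} ≤ volume.real {z | t ≤ f z} := by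
      have hsub' : {z | t < f z} ⊆ {z | t ≤ f z} := fun z (hz : t < f z) => hz.le
      refine measureReal_mono hsub' ?_
      exact ne_top_of_le_ne_top (level_top hf hs) (measure_mono fun _ hz => lt_of_lt_of_le hst hz)
    have h2 : volume.real {z | s < f z ∧ f z < t} ≤
        volume.real {z | s < f z} - volume.real {z | t < f z} := by
      have hsub : {z | t < f z} ⊆ {z | s < f z} := fun _ hx => lt_trans hst hx
      rw [← measureReal_sdiff hsub (isOpen_lt continuous_const (cont hf)).measurableSet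
        (level_top hf hs)]
      refine measureReal_mono ?_ ?_
      · rintro z ⟨h3, h4⟩
        exact ⟨h3, fun h5 => lt_asymm h4 h5⟩
      · exact ne_top_of_le_ne_top (level_top hf hs) (measure_mono fun _ hz => hz.1)
    have h3 : 0 ≤ ∫ z in {z | s < f z ∧ f z < t}, ‖fderiv ℝ f z‖ ^ 2 :=
      integral_nonneg fun _ => sq_nonneg _
    have hpi := Real.pi_pos
    calc 4 * Real.pi * 1 * volume.real {z | t < f z} * (t - s) ^ 2
        ≤ 4 * Real.pi * volume.real {z | t ≤ f z} * (t - s) ^ 2 := by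
          rw [mul_one]
          gcongr
      _ ≤ _ := h
      _ ≤ _ := mul_le_mul_of_nonneg_right h2 h3
  · unfold q at hlt
    linarith

end

end FK4
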